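import Pool.Agent.H798.BV.Stm2
import Pool.Agent.H798.BV.Elem

set_option autoImplicit false

/-!
# (B1P) upper bound of the Bregman distance of `|z|^p`, `2 ≤ p ≤ 3`

The lemmas `norm_sub_sq'`, `chi_mul_re`, `re_conj_mul_le`, `le_re_conj_mul`, `rpow_sub_two` are those of helper798
(`H798/BV/Elem.lean`).
-/

namespace Pool.Agent.H122.BV

open Pool.Agent.H798.BV Set

/-- `(1+t)^s ≤ 1 + s t + t^s`, `1 ≤ s ≤ 2` -/
lemma pow1 {s t : ℝ} (h1 : 1 ≤ s) (h2 : s ≤ 2) (ht : 0 ≤ t) : (1 + t) ^ s ≤ 1 + s * t + t ^ s := by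
  have e1 : (1 + t) ^ s = (1 + t) ^ (s - 1) + t * (1 + t) ^ (s - 1) := by
    have : (1 + t) ^ s = (1 + t) ^ (s - 1) * (1 + t) := by
      nth_rewrite 3 [← Real.rpow_one (1 + t)]
      rw [← Real.rpow_add (by linarith)]
      congr 1
      ring
    rw [this]
    ring
  have k1 : (1 + t) ^ (s - 1) ≤ 1 + (s - 1) * t :=
    rpow_one_add_le_one_add_mul_self (by linarith) (by linarith) (by linarith)
  have k2 : (1 + t) ^ (s - 1) ≤ 1 + t ^ (s - 1) := by
    have := Real.rpow_add_le_add_rpow (p := s - 1) (show (0:ℝ) ≤ 1 by norm_num) ht (by linarith) (by linarith)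
    rwa [Real.one_rpow] at this
  have k3 : t * t ^ (s - 1) = t ^ s := by
    rcases eq_or_lt_of_le ht with rfl | ht'
    · rw [zero_mul, Real.zero_rpow (by linarith)]
    · nth_rewrite 1 [← Real.rpow_one t]
      rw [← Real.rpow_add ht']
      congr 1
      ring
  have k4 : t * (1 + t) ^ (s - 1) ≤ t + t ^ s := by
    calc t * (1 + t) ^ (s - 1) ≤ t * (1 + t ^ (s - 1)) := mul_le_mul_of_nonneg_left k2 ht
      _ = t + t ^ s := by rw [mul_add, k3, mul_one]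
  rw [e1]
  linarith

lemma E1 {p t : ℝ} (h2 : 2 ≤ p) (h3 : p ≤ 3) (ht : 0 ≤ t) :
    (1 + t) ^ p ≤ 1 + p * t + p * (p - 1) / 2 * (t ^ 2 + t ^ p) := by
  have hd : ∀ x ∈ Ioi (0 : ℝ), HasDerivAt
      (fun t : ℝ => 1 + p * t + p * (p - 1) / 2 * (t ^ 2 + t ^ p) - (1 + t) ^ p)
      (p + p * (p - 1) / 2 * (2 * x + p * x ^ (p - 1)) - p * (1 + x) ^ (p - 1)) x := by
    intro x hx
    have hx0 : (0 : ℝ) < x := hx
    have e1 : HasDerivAt (fun t : ℝ => 1 + p * t) p x := by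
      simpa using ((hasDerivAt_id x).const_mul p).const_add 1
    have e2 : HasDerivAt (fun t : ℝ => t ^ 2) (2 * x) x := by simpa using hasDerivAt_pow 2 x
    have e3 : HasDerivAt (fun t : ℝ => t ^ p) (p * x ^ (p - 1)) x :=
      Real.hasDerivAt_rpow_const (Or.inl hx0.ne')
    have e4 : HasDerivAt (fun t : ℝ => (1 + t) ^ p) (p * (1 + x) ^ (p - 1)) x := by
      have h := ((hasDerivAt_id x).const_add 1).rpow_const (p := p) (Or.inl (by simp; linarith))
      simpa using h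
    exact (e1.add ((e2.add e3).const_mul _)).sub e4
  have hc : ContinuousOn (fun t : ℝ => 1 + p * t + p * (p - 1) / 2 * (t ^ 2 + t ^ p) - (1 + t) ^ p) (Ici 0) := by
    have k1 : ContinuousOn (fun t : ℝ => t ^ p) (Ici 0) :=
      (Real.continuous_rpow_const (by linarith)).continuousOn
    have k2 : ContinuousOn (fun t : ℝ => (1 + t) ^ p) (Ici 0) :=
      ((Real.continuous_rpow_const (by linarith)).comp (by fun_prop : Continuous fun t : ℝ => 1 + t)).continuousOn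
    exact ((by fun_prop : ContinuousOn (fun t : ℝ => 1 + p * t) (Ici 0)).add
      (((by fun_prop : ContinuousOn (fun t : ℝ => t ^ 2) (Ici 0)).add k1).const_mul _)).sub k2
  have hmono : MonotoneOn (fun t : ℝ => 1 + p * t + p * (p - 1) / 2 * (t ^ 2 + t ^ p) - (1 + t) ^ p) (Ici 0) := by
    refine monotoneOn_of_deriv_nonneg (convex_Ici 0) hc ?_ ?_
    · rw [interior_Ici]
      exact fun x hx => (hd x hx).differentiableAt.differentiableWithinAt
    · rw [interior_Ici]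
      intro x hx
      have hx0 : (0 : ℝ) < x := hx
      rw [(hd x hx).deriv]
      have k1 := pow1 (s := p - 1) (by linarith) (by linarith) hx0.le
      have k2 : 0 ≤ x ^ (p - 1) := by positivity
      have k3 : 1 ≤ p * (p - 1) / 2 := by nlinarith
      have k4 : x ^ (p - 1) ≤ p * (p - 1) / 2 * x ^ (p - 1) := by nlinarith
      have k5 : 0 ≤ p * (1 + (p - 1) * x + p * (p - 1) / 2 * x ^ (p - 1) - (1 + x) ^ (p - 1)) :=
        mul_nonneg (by linarith) (by linarith)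
      linarith
  have h := hmono (mem_Ici.2 le_rfl) (mem_Ici.2 ht) ht
  simp only [mul_zero, add_zero, Real.one_rpow] at h
  rw [Real.zero_rpow (by linarith)] at h
  norm_num at h
  linarith

lemma E2a {p t : ℝ} (h2 : 2 ≤ p) (ht : 0 ≤ t) (ht1 : t ≤ 1) :
    (1 - t) ^ p ≤ 1 - p * t + p * (p - 1) / 2 * (t ^ 2 + t ^ p) := by
  have hd : ∀ x ∈ Ioo (0 : ℝ) 1, HasDerivAt
      (fun t : ℝ => 1 - p * t + p * (p - 1) / 2 * (t ^ 2 + t ^ p) - (1 - t) ^ p)
      (-p + p * (p - 1) / 2 * (2 * x + p * x ^ (p - 1)) - -(p * (1 - x) ^ (p - 1))) x := by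
    intro x hx
    have hx0 : (0 : ℝ) < x := hx.1
    have hx1 : x < 1 := hx.2
    have e1 : HasDerivAt (fun t : ℝ => 1 - p * t) (-p) x := by
      simpa using ((hasDerivAt_id x).const_mul p).const_sub 1
    have e2 : HasDerivAt (fun t : ℝ => t ^ 2) (2 * x) x := by simpa using hasDerivAt_pow 2 x
    have e3 : HasDerivAt (fun t : ℝ => t ^ p) (p * x ^ (p - 1)) x :=
      Real.hasDerivAt_rpow_const (Or.inl hx0.ne')
    have e4 : HasDerivAt (fun t : ℝ => (1 - t) ^ p) (-(p * (1 - x) ^ (p - 1))) x := by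
      have h := ((hasDerivAt_id x).const_sub 1).rpow_const (p := p) (Or.inl (by simp; linarith))
      simpa using h
    exact (e1.add ((e2.add e3).const_mul _)).sub e4
  have hc : ContinuousOn (fun t : ℝ => 1 - p * t + p * (p - 1) / 2 * (t ^ 2 + t ^ p) - (1 - t) ^ p) (Icc 0 1) := by
    have k1 : ContinuousOn (fun t : ℝ => t ^ p) (Icc 0 1) :=
      (Real.continuous_rpow_const (by linarith)).continuousOn
    have k2 : ContinuousOn (fun t : ℝ => (1 - t) ^ p) (Icc 0 1) :=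
      ((Real.continuous_rpow_const (by linarith)).comp (by fun_prop : Continuous fun t : ℝ => 1 - t)).continuousOn
    exact ((by fun_prop : ContinuousOn (fun t : ℝ => 1 - p * t) (Icc 0 1)).add
      (((by fun_prop : ContinuousOn (fun t : ℝ => t ^ 2) (Icc 0 1)).add k1).const_mul _)).sub k2
  have hmono : MonotoneOn (fun t : ℝ => 1 - p * t + p * (p - 1) / 2 * (t ^ 2 + t ^ p) - (1 - t) ^ p) (Icc 0 1) := by
    refine monotoneOn_of_deriv_nonneg (convex_Icc 0 1) hc ?_ ?_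
    · rw [interior_Icc]
      exact fun x hx => (hd x hx).differentiableAt.differentiableWithinAt
    · rw [interior_Icc]
      intro x hx
      have hx0 : (0 : ℝ) < x := hx.1
      rw [(hd x hx).deriv]
      have k1 : 1 + (p - 1) * (-x) ≤ (1 + (-x)) ^ (p - 1) :=
        one_add_mul_self_le_rpow_one_add (by linarith [hx.2]) (by linarith)
      rw [← sub_eq_add_neg 1 x] at k1
      have k2 : 0 ≤ p * (p - 1) / 2 * (p * x ^ (p - 1)) := by
        have : 0 ≤ p - 1 := by linarith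
        positivity
      have k5 : 0 ≤ p * ((1 - x) ^ (p - 1) - (1 + (p - 1) * (-x))) :=
        mul_nonneg (by linarith) (by linarith)
      linarith
  have h := hmono (left_mem_Icc.2 zero_le_one) (mem_Icc.2 ⟨ht, ht1⟩) ht
  simp only [mul_zero, sub_zero, Real.one_rpow] at h
  rw [Real.zero_rpow (by linarith)] at h
  norm_num at h
  linarith

lemma E2 {p t : ℝ} (h2 : 2 ≤ p) (h3 : p ≤ 3) (ht : 0 ≤ t) :
    |1 - t| ^ p ≤ 1 - p * t + p * (p - 1) / 2 * (t ^ 2 + t ^ p) := by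
  rcases le_total t 1 with h | h
  · rw [abs_of_nonneg (by linarith)]
    exact E2a h2 ht h
  · have k1 : |1 - t| ^ p ≤ t ^ p := by
      refine Real.rpow_le_rpow (abs_nonneg _) ?_ (by linarith)
      rw [abs_of_nonpos (by linarith)]
      linarith
    have k3 : 1 ≤ p * (p - 1) / 2 := by nlinarith
    have k2 : 0 ≤ t ^ p := by positivity
    have k4 : t ^ p ≤ p * (p - 1) / 2 * t ^ p := by nlinarith
    have k5 : 0 ≤ 1 - p * t + p * (p - 1) / 2 * t ^ 2 := by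
      have : 1 - p * t + p * (p - 1) / 2 * t ^ 2 = (1 - p * t / 2) ^ 2 + p * (p - 2) / 4 * t ^ 2 := by ring
      rw [this]
      have : 0 ≤ p - 2 := by linarith
      positivity
    linarith

lemma nrm {p t ρ : ℝ} (h2 : 2 ≤ p) (h3 : p ≤ 3) (ht : 0 < t) (hρ : -t ≤ ρ) (hρ1 : ρ ≤ t) :
    (1 - 2 * ρ + t ^ 2) ^ (p / 2) ≤ 1 - p * ρ + p * (p - 1) / 2 * (t ^ 2 + t ^ p) := by
  have hcv : ConvexOn ℝ (Ici (0 : ℝ)) fun x : ℝ => x ^ (p / 2) := convexOn_rpow (by linarith)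
  have hc : ((t - ρ) / (2 * t) * (1 + t) ^ 2 + (t + ρ) / (2 * t) * |1 - t| ^ 2) ^ (p / 2) ≤
      (t - ρ) / (2 * t) * ((1 + t) ^ 2) ^ (p / 2) + (t + ρ) / (2 * t) * (|1 - t| ^ 2) ^ (p / 2) :=
    hcv.2 (mem_Ici.2 (by positivity)) (mem_Ici.2 (by positivity))
      (div_nonneg (by linarith) (by linarith)) (div_nonneg (by linarith) (by linarith))
      (by field_simp; ring)
  have e1 : (t - ρ) / (2 * t) * (1 + t) ^ 2 + (t + ρ) / (2 * t) * |1 - t| ^ 2 = 1 - 2 * ρ + t ^ 2 := by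
    rw [sq_abs]
    field_simp
    ring
  have e2 : ∀ y : ℝ, 0 ≤ y → (y ^ 2) ^ (p / 2) = y ^ p := by
    intro y hy
    rw [← Real.rpow_natCast, ← Real.rpow_mul hy]
    congr 1
    push_cast
    ring
  rw [e1, e2 _ (by linarith), e2 _ (abs_nonneg _)] at hc
  have k1 := mul_le_mul_of_nonneg_left (E1 h2 h3 ht.le)
    (div_nonneg (by linarith) (by linarith) : 0 ≤ (t - ρ) / (2 * t))
  have k2 := mul_le_mul_of_nonneg_left (E2 h2 h3 ht.le)
    (div_nonneg (by linarith) (by linarith) : 0 ≤ (t + ρ) / (2 * t))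
  refine hc.trans ((add_le_add k1 k2).trans (le_of_eq ?_))
  field_simp
  ring

theorem t_B1P : S_B1P := by
  intro p h2 h3 z c
  rw [chi_mul_re]
  rcases eq_or_ne c 0 with rfl | hc
  · have hp0 : (0 : ℝ) ^ p = 0 := Real.zero_rpow (by linarith)
    simp [hp0]
  have hc0 : 0 < ‖c‖ := norm_pos_iff.2 hc
  rcases eq_or_ne z 0 with rfl | hz
  · have hp0 : (0 : ℝ) ^ p = 0 := Real.zero_rpow (by linarith)
    have k3 : 1 ≤ p * (p - 1) / 2 := by nlinarith
    have k2 : 0 ≤ ‖c‖ ^ p := by positivity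
    have k4 : ‖c‖ ^ p ≤ p * (p - 1) / 2 * ‖c‖ ^ p := by nlinarith
    have k5 : 0 ≤ p * (p - 1) / 2 * (‖(0 : ℂ)‖ ^ (p - 2) * ‖c‖ ^ 2) := by positivity
    simp only [zero_sub, norm_neg, map_zero, zero_mul, Complex.zero_re, mul_zero, sub_zero]
    have k6 : ‖(0 : ℂ)‖ ^ p = 0 := by rw [norm_zero, hp0]
    rw [k6]
    linarith
  have hz0 : 0 < ‖z‖ := norm_pos_iff.2 hz
  obtain ⟨R, hR⟩ : ∃ R, R = ((starRingEnd ℂ) z * c).re := ⟨_, rfl⟩
  rw [← hR]
  obtain ⟨t, ht⟩ : ∃ t, t = ‖c‖ / ‖z‖ := ⟨_, rfl⟩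
  obtain ⟨ρ, hρ⟩ : ∃ ρ, ρ = R / ‖z‖ ^ 2 := ⟨_, rfl⟩
  have ht0 : 0 < t := by rw [ht]; positivity
  have k1 : -t ≤ ρ := by
    have := le_re_conj_mul z c
    rw [← hR] at this
    rw [hρ, ht, le_div_iff₀ (by positivity)]
    have e : -(‖c‖ / ‖z‖) * ‖z‖ ^ 2 = -(‖z‖ * ‖c‖) := by field_simp
    rw [e]
    exact this
  have k2 : ρ ≤ t := by
    have := re_conj_mul_le z c
    rw [← hR] at this
    rw [hρ, ht, div_le_iff₀ (by positivity)]
    have e : ‖c‖ / ‖z‖ * ‖z‖ ^ 2 = ‖z‖ * ‖c‖ := by field_simp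
    rw [e]
    exact this
  have hn := nrm h2 h3 ht0 k1 k2
  have e0 : ‖z - c‖ ^ 2 = ‖z‖ ^ 2 * (1 - 2 * ρ + t ^ 2) := by
    rw [norm_sub_sq', ← hR, hρ, ht]
    field_simp
  have hx : 0 ≤ 1 - 2 * ρ + t ^ 2 := by nlinarith [sq_nonneg (1 - t)]
  have e1 : ‖z - c‖ ^ p = ‖z‖ ^ p * (1 - 2 * ρ + t ^ 2) ^ (p / 2) := by
    have e2 : ‖z - c‖ ^ p = (‖z - c‖ ^ 2) ^ (p / 2) := by
      rw [← Real.rpow_natCast, ← Real.rpow_mul (norm_nonneg _)]; congr 1; push_cast; ring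
    rw [e2, e0, Real.mul_rpow (by positivity) hx]
    congr 1
    rw [← Real.rpow_natCast, ← Real.rpow_mul (norm_nonneg _)]; congr 1; push_cast; ring
  have e3 : ‖z‖ ^ p * ρ = ‖z‖ ^ (p - 2) * R := by
    rw [← rpow_sub_two hz0 p, hρ]
    field_simp
  have e4 : ‖z‖ ^ p * t ^ 2 = ‖z‖ ^ (p - 2) * ‖c‖ ^ 2 := by
    rw [← rpow_sub_two hz0 p, ht]
    field_simp
  have e5 : ‖z‖ ^ p * t ^ p = ‖c‖ ^ p := by
    rw [← Real.mul_rpow hz0.le ht0.le, ht]
    congr 1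
    field_simp
  rw [e1]
  calc ‖z‖ ^ p * (1 - 2 * ρ + t ^ 2) ^ (p / 2)
      ≤ ‖z‖ ^ p * (1 - p * ρ + p * (p - 1) / 2 * (t ^ 2 + t ^ p)) :=
        mul_le_mul_of_nonneg_left hn (by positivity)
    _ = ‖z‖ ^ p - p * (‖z‖ ^ p * ρ) + p * (p - 1) / 2 * (‖z‖ ^ p * t ^ 2 + ‖z‖ ^ p * t ^ p) := by ring
    _ = _ := by rw [e3, e4, e5]

end Pool.Agent.H122.BV
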